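import Mathlib

/-!
# A one-delay equation with sign-changing coefficient: growth with almost constant delay
-/

set_option autoImplicit false

open MeasureTheory Filter Topology Set

namespace Pool.Agent.KS6_46.DE

/-- Parameters: growth rate `l`, mean delay `τ`, mean coefficient `D`, relative amplitude `e`,
frequency `ν`. -/
structure Par where
  l : ℝ
  τ : ℝ
  D : ℝ
  e : ℝ
  ν : ℝ
  hl : 0 < l
  hτ : 0 < τ
  hD : 0 < D
  he : 0 < e
  he2 : e ≤ 1 / 2
  hν : 0 < ν

namespace Par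

variable (P : Par)

noncomputable def β : ℝ := Real.exp (P.l * P.τ)

noncomputable def κ : ℝ := 2 * (P.D + P.l * P.β) / (P.e * P.β)

lemma β_pos : 0 < P.β := Real.exp_pos _

lemma κ_pos : 0 < P.κ := by
  have := P.β_pos
  have := P.hl
  have := P.hD
  have := P.he
  unfold κ
  positivity

lemma κ_eq : P.κ * (P.e * P.β) / 2 - P.l * P.β = P.D := by
  have h1 := P.β_pos
  have h2 := P.he
  unfold κ
  field_simp
  ring

/-- the delay -/
noncomputable def del (t : ℝ) : ℝ := P.τ + P.l⁻¹ * Real.log (1 - P.e * Real.cos (P.ν * t))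

/-- the argument -/
noncomputable def hh (t : ℝ) : ℝ := t - P.del t

/-- the main part of the coefficient -/
noncomputable def FF (t : ℝ) : ℝ :=
  -((P.l + P.κ * Real.cos (P.ν * t)) * (P.β * (1 - P.e * Real.cos (P.ν * t))))

/-- the coefficient -/
noncomputable def aa (t : ℝ) : ℝ :=
  P.FF t * Real.exp (P.κ / P.ν * (Real.sin (P.ν * t) - Real.sin (P.ν * P.hh t)))

/-- the growing solution -/
noncomputable def xx (c t : ℝ) : ℝ := c * Real.exp (P.l * t + P.κ / P.ν * Real.sin (P.ν * t))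

lemma one_sub (t : ℝ) : 1 / 2 ≤ 1 - P.e * Real.cos (P.ν * t) ∧
    1 - P.e * Real.cos (P.ν * t) ≤ 3 / 2 := by
  have h1 := Real.cos_le_one (P.ν * t)
  have h2 := Real.neg_one_le_cos (P.ν * t)
  have h3 := P.he
  have h4 := P.he2
  constructor <;> nlinarith

lemma continuous_del : Continuous P.del := by
  unfold del
  refine continuous_const.add (continuous_const.mul (Continuous.log (by fun_prop) ?_))
  intro t
  have := (P.one_sub t).1
  linarith

lemma continuous_hh : Continuous P.hh := by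
  unfold hh
  exact continuous_id.sub P.continuous_del

lemma continuous_FF : Continuous P.FF := by
  unfold FF
  fun_prop

lemma continuous_aa : Continuous P.aa := by
  unfold aa
  have := P.continuous_hh
  have := P.continuous_FF
  fun_prop

lemma abs_log_le {u : ℝ} (h : |u| ≤ 1 / 2) : |Real.log (1 - u)| ≤ 2 * |u| := by
  have h1 : u ≤ 1 / 2 := (abs_le.1 h).2
  have h2 : -(1 / 2) ≤ u := (abs_le.1 h).1
  have hpos : 0 < 1 - u := by linarith
  rw [abs_le]
  constructor
  · -- `log (1-u) ≥ 1 - 1/(1-u) = -u/(1-u)`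
    have h3 := Real.one_sub_inv_le_log_of_pos hpos
    have h4 : -(2 * |u|) ≤ 1 - (1 - u)⁻¹ := by
      have h5 : 1 - (1 - u)⁻¹ = -(u * (1 - u)⁻¹) := by
        field_simp
        ring
      rw [h5]
      have h6 : (1 - u)⁻¹ ≤ 2 := by
        rw [inv_le_comm₀ hpos (by norm_num)]
        linarith
      have h7 : 0 < (1 - u)⁻¹ := inv_pos.2 hpos
      have h8 : u * (1 - u)⁻¹ ≤ |u| * 2 := by
        calc u * (1 - u)⁻¹ ≤ |u| * (1 - u)⁻¹ := by
              apply mul_le_mul_of_nonneg_right (le_abs_self u) h7.le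
          _ ≤ |u| * 2 := by
              apply mul_le_mul_of_nonneg_left h6 (abs_nonneg u)
      linarith
    linarith
  · have h3 := Real.log_le_sub_one_of_pos hpos
    have h4 := neg_abs_le u
    have h5 := abs_nonneg u
    linarith

lemma del_bound (t : ℝ) : |P.del t - P.τ| ≤ 2 * P.e / P.l := by
  have hl := P.hl
  have he := P.he
  have h1 : |P.e * Real.cos (P.ν * t)| ≤ P.e := by
    rw [abs_mul, abs_of_pos he]
    have := Real.abs_cos_le_one (P.ν * t)
    nlinarith
  have h2 := abs_log_le (h1.trans P.he2)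
  have h3 : P.del t - P.τ = P.l⁻¹ * Real.log (1 - P.e * Real.cos (P.ν * t)) := by
    unfold del
    ring
  rw [h3, abs_mul, abs_of_pos (inv_pos.2 hl), div_eq_inv_mul]
  apply mul_le_mul_of_nonneg_left _ (inv_pos.2 hl).le
  linarith

lemma hasDerivAt_xx (c t : ℝ) :
    HasDerivAt (P.xx c) (-(P.aa t * P.xx c (P.hh t))) t := by
  have hν := P.hν
  have hl := P.hl
  have h1 : HasDerivAt (fun t => Real.sin (P.ν * t)) (Real.cos (P.ν * t) * P.ν) t := by
    have := ((hasDerivAt_id t).const_mul P.ν).sin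
    simpa using this
  have h2 : HasDerivAt (fun t => P.l * t + P.κ / P.ν * Real.sin (P.ν * t))
      (P.l * 1 + P.κ / P.ν * (Real.cos (P.ν * t) * P.ν)) t :=
    ((hasDerivAt_id t).const_mul P.l).add (h1.const_mul _)
  have h3 := h2.exp.const_mul c
  have h4 : c * (Real.exp (P.l * t + P.κ / P.ν * Real.sin (P.ν * t)) *
      (P.l * 1 + P.κ / P.ν * (Real.cos (P.ν * t) * P.ν))) =
      -(P.aa t * P.xx c (P.hh t)) := by
    have e1 : P.κ / P.ν * (Real.cos (P.ν * t) * P.ν) = P.κ * Real.cos (P.ν * t) := by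
      field_simp
    have hpos : 0 < 1 - P.e * Real.cos (P.ν * t) := by
      have := (P.one_sub t).1
      linarith
    have e2 : Real.exp (P.κ / P.ν * (Real.sin (P.ν * t) - Real.sin (P.ν * P.hh t))) *
        Real.exp (P.l * P.hh t + P.κ / P.ν * Real.sin (P.ν * P.hh t)) *
        (P.β * (1 - P.e * Real.cos (P.ν * t))) =
        Real.exp (P.l * t + P.κ / P.ν * Real.sin (P.ν * t)) := by
      have e3 : Real.exp (Real.log (1 - P.e * Real.cos (P.ν * t))) =
        1 - P.e * Real.cos (P.ν * t) := Real.exp_log hpos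
      rw [← Real.exp_add, ← e3, β, ← Real.exp_add, ← Real.exp_add]
      congr 1
      unfold hh del
      field_simp
      ring
    unfold aa xx FF
    rw [e1, ← e2]
    ring
  rw [← h4]
  exact h3

/-- A primitive of the main part. -/
noncomputable def GG (s : ℝ) : ℝ :=
  P.D * s + P.ν⁻¹ * (P.β * ((P.l * P.e - P.κ) * Real.sin (P.ν * s) +
    P.κ * P.e / 2 * (Real.sin (P.ν * s) * Real.cos (P.ν * s))))

lemma hasDerivAt_GG (s : ℝ) : HasDerivAt P.GG (P.FF s) s := by
  have hν := P.hν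
  have h0 : HasDerivAt (fun t => P.ν * t) P.ν s := by
    simpa using (hasDerivAt_id s).const_mul P.ν
  have h1 : HasDerivAt (fun t => Real.sin (P.ν * t)) (Real.cos (P.ν * s) * P.ν) s := h0.sin
  have h2 : HasDerivAt (fun t => Real.cos (P.ν * t)) (-Real.sin (P.ν * s) * P.ν) s := h0.cos
  have h3 := ((hasDerivAt_id s).const_mul P.D).add
    ((((h1.const_mul (P.l * P.e - P.κ)).add
      ((h1.mul h2).const_mul (P.κ * P.e / 2))).const_mul P.β).const_mul P.ν⁻¹)
  refine h3.congr_deriv ?_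
  unfold FF
  have hs : Real.sin (P.ν * s) ^ 2 = 1 - Real.cos (P.ν * s) ^ 2 := by
    have := Real.sin_sq_add_cos_sq (P.ν * s)
    linarith
  have hk := P.κ_eq
  have hne := hν.ne'
  have e1 : P.D * 1 + P.ν⁻¹ * (P.β * ((P.l * P.e - P.κ) * (Real.cos (P.ν * s) * P.ν) +
      P.κ * P.e / 2 * (Real.cos (P.ν * s) * P.ν * Real.cos (P.ν * s) +
        Real.sin (P.ν * s) * (-Real.sin (P.ν * s) * P.ν)))) =
      P.D + P.β * ((P.l * P.e - P.κ) * Real.cos (P.ν * s) +
      P.κ * P.e / 2 * (Real.cos (P.ν * s) ^ 2 - Real.sin (P.ν * s) ^ 2)) := by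
    field_simp
    ring
  rw [e1, hs, ← hk]
  ring

lemma FF_bound (s : ℝ) : |P.FF s| ≤ (P.l + P.κ) * (P.β * (3 / 2)) := by
  have hκ := P.κ_pos
  have hβ := P.β_pos
  have hl := P.hl
  unfold FF
  rw [abs_neg, abs_mul, abs_mul, abs_of_pos hβ]
  obtain ⟨h1, h2⟩ := P.one_sub s
  have h3 : |1 - P.e * Real.cos (P.ν * s)| ≤ 3 / 2 := by rw [abs_le]; constructor <;> linarith
  have h4 : |P.l + P.κ * Real.cos (P.ν * s)| ≤ P.l + P.κ := by
    calc |P.l + P.κ * Real.cos (P.ν * s)| ≤ |P.l| + |P.κ * Real.cos (P.ν * s)| := abs_add_le _ _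
      _ = P.l + P.κ * |Real.cos (P.ν * s)| := by
        rw [abs_mul, abs_of_pos hκ, abs_of_pos hl]
      _ ≤ P.l + P.κ * 1 := by
        have := Real.abs_cos_le_one (P.ν * s)
        gcongr
      _ = P.l + P.κ := by ring
  gcongr

lemma aa_sub_FF (hν : 4 * P.κ ≤ P.ν) (s : ℝ) :
    |P.aa s - P.FF s| ≤ (P.l + P.κ) * (P.β * (3 / 2)) * (4 * P.κ) / P.ν := by
  have hκ := P.κ_pos
  have hβ := P.β_pos
  have hl := P.hl
  have hν0 := P.hν
  set y := P.κ / P.ν * (Real.sin (P.ν * s) - Real.sin (P.ν * P.hh s)) with hy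
  have hy1 : |y| ≤ P.κ / P.ν * 2 := by
    rw [hy, abs_mul, abs_of_pos (by positivity)]
    gcongr
    have h1 := Real.sin_le_one (P.ν * s)
    have h2 := Real.neg_one_le_sin (P.ν * s)
    have h3 := Real.sin_le_one (P.ν * P.hh s)
    have h4 := Real.neg_one_le_sin (P.ν * P.hh s)
    rw [abs_le]; constructor <;> linarith
  have hy0 : P.κ / P.ν * 2 ≤ 1 := by
    have : P.κ / P.ν ≤ 1 / 4 := by
      rw [div_le_iff₀ hν0]
      linarith
    linarith
  have hy2 : |Real.exp y - 1| ≤ 4 * P.κ / P.ν := by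
    have := Real.abs_exp_sub_one_le (x := y) (by linarith)
    calc |Real.exp y - 1| ≤ 2 * |y| := this
      _ ≤ 2 * (P.κ / P.ν * 2) := by linarith
      _ = 4 * P.κ / P.ν := by ring
  have e : P.aa s - P.FF s = P.FF s * (Real.exp y - 1) := by
    simp only [aa, ← hy]; ring
  rw [e, abs_mul]
  calc |P.FF s| * |Real.exp y - 1| ≤ (P.l + P.κ) * (P.β * (3 / 2)) * (4 * P.κ / P.ν) := by
        gcongr
        exact P.FF_bound s
    _ = _ := by ring

lemma GG_bound (s t : ℝ) : |P.GG t - P.GG s - P.D * (t - s)| ≤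
    P.β * (2 * (P.l * P.e + P.κ) + P.κ * P.e) / P.ν := by
  have hκ := P.κ_pos
  have hβ := P.β_pos
  have hl := P.hl
  have hν0 := P.hν
  have he := P.he
  have e : P.GG t - P.GG s - P.D * (t - s) = P.ν⁻¹ * (P.β *
      ((P.l * P.e - P.κ) * (Real.sin (P.ν * t) - Real.sin (P.ν * s)) +
      P.κ * P.e / 2 * (Real.sin (P.ν * t) * Real.cos (P.ν * t) -
        Real.sin (P.ν * s) * Real.cos (P.ν * s)))) := by
    unfold GG
    ring
  have hb : ∀ y : ℝ, |Real.sin y * Real.cos y| ≤ 1 := by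
    intro y
    rw [abs_mul]
    have h1 := Real.abs_sin_le_one y
    have h2 := Real.abs_cos_le_one y
    calc |Real.sin y| * |Real.cos y| ≤ 1 * 1 := by gcongr
      _ = 1 := by norm_num
  have a1 : |P.l * P.e - P.κ| ≤ P.l * P.e + P.κ := by
    have : 0 < P.l * P.e := by positivity
    rw [abs_le]; constructor <;> linarith
  have a2 : |Real.sin (P.ν * t) - Real.sin (P.ν * s)| ≤ 2 := by
    have h1 := Real.sin_le_one (P.ν * t)
    have h2 := Real.neg_one_le_sin (P.ν * t)
    have h3 := Real.sin_le_one (P.ν * s)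
    have h4 := Real.neg_one_le_sin (P.ν * s)
    rw [abs_le]; constructor <;> linarith
  have a4 : |Real.sin (P.ν * t) * Real.cos (P.ν * t) -
        Real.sin (P.ν * s) * Real.cos (P.ν * s)| ≤ 2 := by
    have b1 := abs_le.1 (hb (P.ν * t))
    have b2 := abs_le.1 (hb (P.ν * s))
    rw [abs_le]; constructor <;> linarith [b1.1, b1.2, b2.1, b2.2]
  rw [e, abs_mul, abs_mul, abs_of_pos (inv_pos.2 hν0), abs_of_pos hβ,
    show P.β * (2 * (P.l * P.e + P.κ) + P.κ * P.e) / P.ν =
      P.ν⁻¹ * (P.β * (2 * (P.l * P.e + P.κ) + P.κ * P.e)) by ring]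
  apply mul_le_mul_of_nonneg_left _ (inv_pos.2 hν0).le
  apply mul_le_mul_of_nonneg_left _ hβ.le
  calc _ ≤ |(P.l * P.e - P.κ) * (Real.sin (P.ν * t) - Real.sin (P.ν * s))| +
      |P.κ * P.e / 2 * (Real.sin (P.ν * t) * Real.cos (P.ν * t) -
        Real.sin (P.ν * s) * Real.cos (P.ν * s))| := abs_add_le _ _
    _ ≤ (P.l * P.e + P.κ) * 2 + P.κ * P.e / 2 * 2 := by
      rw [abs_mul, abs_mul, abs_of_pos (by positivity : 0 < P.κ * P.e / 2)]
      gcongr
    _ = _ := by ring

/-- total error constant -/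
noncomputable def err : ℝ :=
  (P.l + P.κ) * (P.β * (3 / 2)) * (4 * P.κ) * (P.τ + 2 * P.e / P.l) +
    P.β * (2 * (P.l * P.e + P.κ) + P.κ * P.e)

lemma integral_bound (hν : 4 * P.κ ≤ P.ν) (t : ℝ) :
    |(∫ s in P.hh t..t, P.aa s) - P.D * P.del t| ≤ P.err / P.ν := by
  have hκ := P.κ_pos
  have hβ := P.β_pos
  have hl := P.hl
  have hν0 := P.hν
  have he := P.he
  have hτ := P.hτ
  have hca := P.continuous_aa
  have hcF := P.continuous_FF
  have h1 : (∫ s in P.hh t..t, P.FF s) = P.GG t - P.GG (P.hh t) :=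
    intervalIntegral.integral_eq_sub_of_hasDerivAt (fun s _ => P.hasDerivAt_GG s)
      (hcF.intervalIntegrable _ _)
  have h2 : (∫ s in P.hh t..t, P.aa s) =
      (∫ s in P.hh t..t, (P.aa s - P.FF s)) + (P.GG t - P.GG (P.hh t)) := by
    rw [← h1, ← intervalIntegral.integral_add]
    · simp
    · exact (hca.sub hcF).intervalIntegrable _ _
    · exact hcF.intervalIntegrable _ _
  have h0 : t - P.hh t = P.del t := by
    unfold hh
    ring
  have h3 : |∫ s in P.hh t..t, (P.aa s - P.FF s)| ≤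
      (P.l + P.κ) * (P.β * (3 / 2)) * (4 * P.κ) / P.ν * |t - P.hh t| := by
    have := intervalIntegral.norm_integral_le_of_norm_le_const (a := P.hh t) (b := t)
      (f := fun s => P.aa s - P.FF s)
      (C := (P.l + P.κ) * (P.β * (3 / 2)) * (4 * P.κ) / P.ν)
      (fun s _ => by simpa [Real.norm_eq_abs] using P.aa_sub_FF hν s)
    simpa [Real.norm_eq_abs] using this
  have h4 : |t - P.hh t| ≤ P.τ + 2 * P.e / P.l := by
    rw [h0]
    have := P.del_bound t
    calc |P.del t| = |(P.del t - P.τ) + P.τ| := by congr 1; ring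
      _ ≤ |P.del t - P.τ| + |P.τ| := abs_add_le _ _
      _ ≤ 2 * P.e / P.l + P.τ := by rw [abs_of_pos hτ]; linarith
      _ = _ := by ring
  have h5 : |∫ s in P.hh t..t, (P.aa s - P.FF s)| ≤
      (P.l + P.κ) * (P.β * (3 / 2)) * (4 * P.κ) / P.ν * (P.τ + 2 * P.e / P.l) :=
    h3.trans (by gcongr)
  have h6 := P.GG_bound (P.hh t) t
  rw [h0] at h6
  rw [h2]
  calc |(∫ s in P.hh t..t, (P.aa s - P.FF s)) + (P.GG t - P.GG (P.hh t)) - P.D * P.del t|
      = |(∫ s in P.hh t..t, (P.aa s - P.FF s)) +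
        (P.GG t - P.GG (P.hh t) - P.D * P.del t)| := by congr 1; ring
    _ ≤ |∫ s in P.hh t..t, (P.aa s - P.FF s)| +
        |P.GG t - P.GG (P.hh t) - P.D * P.del t| := abs_add_le _ _
    _ ≤ (P.l + P.κ) * (P.β * (3 / 2)) * (4 * P.κ) / P.ν * (P.τ + 2 * P.e / P.l) +
        P.β * (2 * (P.l * P.e + P.κ) + P.κ * P.e) / P.ν := add_le_add h5 h6
    _ = P.err / P.ν := by
      unfold err
      ring

lemma aa_bound (hν : 4 * P.κ ≤ P.ν) (t : ℝ) : |P.aa t| ≤
    (P.l + P.κ) * (P.β * (3 / 2)) + (P.l + P.κ) * (P.β * (3 / 2)) * (4 * P.κ) / P.ν := by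
  have h1 := P.aa_sub_FF hν t
  have h2 := P.FF_bound t
  calc |P.aa t| = |P.FF t + (P.aa t - P.FF t)| := by congr 1; ring
    _ ≤ |P.FF t| + |P.aa t - P.FF t| := abs_add_le _ _
    _ ≤ _ := add_le_add h2 h1

end Par

end Pool.Agent.KS6_46.DE
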